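import Pool.Agent.Run7.h761.Fin2

/-!
Lower bound for the least perimeter of planar clusters of `N` regions of equal area.
-/

set_option autoImplicit false

namespace Pool.Agent.Results.MP_0e6ba8_gt.LowerBoundSharp

open Run7.h761

/-- The least perimeter `p(N)` is finite for every `N` and
`liminf (p(N) - 3 N) / √N ≥ 2.956`. -/
theorem result : (∀ N : ℕ, leastPerimeter N < ⊤) ∧
    ((2.956 : ℝ) : EReal) ≤ Filter.liminf
      (fun N : ℕ => ((((leastPerimeter N).toReal - 3 * N) / √N : ℝ) : EReal)) Filter.atTop :=
  ⟨fun N => (explicit_bound N).trans_lt ENNReal.ofReal_lt_top, liminf_bound⟩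

end Pool.Agent.Results.MP_0e6ba8_gt.LowerBoundSharp
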