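import Pool.Agent.Run7.h761.Asymp

/-!
Upper bound for the least perimeter of planar clusters of `N` regions of equal area.
-/

set_option autoImplicit false

namespace Pool.Agent.Results.MP_0e6ba8_gt.UpperBound

open Run7.h761

/-- The least perimeter `p(N)` is finite for every `N` and
`limsup (p(N) - 3 N) / √N ≤ 3.1095`. -/
theorem result : (∀ N : ℕ, leastPerimeter N < ⊤) ∧
    Filter.limsup (fun N : ℕ => ((((leastPerimeter N).toReal - 3 * N) / √N : ℝ) : EReal))
      Filter.atTop ≤ ((3.1095 : ℝ) : EReal) :=
  ⟨fun N => (explicit_bound N).trans_lt ENNReal.ofReal_lt_top, limsup_bound⟩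

end Pool.Agent.Results.MP_0e6ba8_gt.UpperBound
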